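import Mathlib

namespace Pool.Agent.Results.MP_e0197a_co.MatchingCuts

/-- Euclidean 3-space. -/
abbrev E3 : Type := EuclideanSpace ℝ (Fin 3)

/-- The face structure of a polyhedron: vertices with positions, edges with their two endpoints,
faces (panels); every edge lies on two faces, and the faces around every vertex form one cycle
`f 0, f 1, …, f (n-1)` in which consecutive faces share an edge `e i` at the vertex, these being
exactly the edges at the vertex. The boundary complex of every convex polyhedron is of this kind. -/
structure Polyhedron where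
  /-- vertices -/
  V : Type
  /-- edges -/
  E : Type
  /-- faces -/
  F : Type
  /-- position of the vertices -/
  pos : V → E3
  /-- first endpoint of an edge -/
  fst : E → V
  /-- second endpoint of an edge -/
  snd : E → V
  /-- one of the two faces at an edge -/
  left : E → F
  /-- the other face at an edge -/
  right : E → F
  /-- the faces and edges around each vertex form a cycle -/
  cyclic : ∀ v : V, ∃ (n : ℕ) (_ : NeZero n) (f : ZMod n → F) (e : ZMod n → E),
    Function.Injective e ∧ (∀ x, (fst x = v ∨ snd x = v) ↔ ∃ i, e i = x) ∧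
    ∀ i, (left (e i) = f i ∧ right (e i) = f (i + 1)) ∨
      (left (e i) = f (i + 1) ∧ right (e i) = f i)

/-- A motion of the paneled polyhedron in which the edges of `M` have been cut: a continuous
family of isometries, one for each panel at each time, starting at the identity and respecting
the hinge (the whole segment) at every edge that is not cut. -/
structure IsMotion (P : Polyhedron) (M : Set P.E) (g : ℝ → P.F → (E3 ≃ᵢ E3)) : Prop where
  cont : ∀ (f : P.F) (x : E3), Continuous fun t => g t f x
  start : ∀ f : P.F, g 0 f = IsometryEquiv.refl E3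
  hinge : ∀ e : P.E, e ∉ M → ∀ t : ℝ, ∀ x ∈ segment ℝ (P.pos (P.fst e)) (P.pos (P.snd e)),
    g t (P.left e) x = g t (P.right e) x

/-- Rigid: every motion moves all panels by one common isometry at each time. -/
def Rigid (P : Polyhedron) (M : Set P.E) : Prop :=
  ∀ g : ℝ → P.F → (E3 ≃ᵢ E3), IsMotion P M g → ∀ t f f', g t f = g t f'

/-- `M` is a matching: distinct edges of `M` have no common endpoint. -/
def IsMatching (P : Polyhedron) (M : Set P.E) : Prop :=
  ∀ e ∈ M, ∀ e' ∈ M, e ≠ e' → P.fst e ≠ P.fst e' ∧ P.fst e ≠ P.snd e' ∧
    P.snd e ≠ P.fst e' ∧ P.snd e ≠ P.snd e'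

/-- all faces at a vertex agree on the image of the vertex -/
lemma vertex_common {P : Polyhedron} {M : Set P.E} (hM : IsMatching P M)
    {g : ℝ → P.F → (E3 ≃ᵢ E3)} (hg : IsMotion P M g) (t : ℝ) (v : P.V) (e : P.E)
    (he : P.fst e = v ∨ P.snd e = v) :
    g t (P.left e) (P.pos v) = g t (P.right e) (P.pos v) := by
  classical
  by_cases heM : e ∉ M
  · apply hg.hinge e heM t
    rcases he with rfl | rfl
    · exact left_mem_segment ℝ _ _
    · exact right_mem_segment ℝ _ _
  · push Not at heM
    obtain ⟨n, _, f, ε, hinj, hall, hside⟩ := P.cyclic v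
    obtain ⟨i0, hi0⟩ := (hall e).mp he
    -- other edges at v are not cut
    have hstep : ∀ i, i ≠ i0 → g t (f i) (P.pos v) = g t (f (i + 1)) (P.pos v) := by
      intro i hi
      have hiv : P.fst (ε i) = v ∨ P.snd (ε i) = v := (hall _).mpr ⟨i, rfl⟩
      have hnot : ε i ∉ M := by
        intro hmem
        have hne : ε i ≠ e := by
          rw [← hi0]; exact fun h => hi (hinj h)
        obtain ⟨h1, h2, h3, h4⟩ := hM _ hmem _ heM hne
        rcases hiv with h | h <;> rcases he with h' | h'
        · exact h1 (h.trans h'.symm)
        · exact h2 (h.trans h'.symm)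
        · exact h3 (h.trans h'.symm)
        · exact h4 (h.trans h'.symm)
      have hseg : P.pos v ∈ segment ℝ (P.pos (P.fst (ε i))) (P.pos (P.snd (ε i))) := by
        rcases hiv with h | h
        · rw [← h]; exact left_mem_segment ℝ _ _
        · rw [← h]; exact right_mem_segment ℝ _ _
      have := hg.hinge (ε i) hnot t (P.pos v) hseg
      rcases hside i with ⟨h1, h2⟩ | ⟨h1, h2⟩
      · rw [h1, h2] at this; exact this
      · rw [h1, h2] at this; exact this.symm
    -- go around the vertex avoiding `i0`
    have hgo : ∀ k : ℕ, k + 1 ≤ n →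
        g t (f (i0 + 1)) (P.pos v) = g t (f (i0 + 1 + (k : ZMod n))) (P.pos v) := by
      intro k
      induction k with
      | zero => intro _; simp
      | succ k ih =>
        intro hk
        rw [ih (by omega)]
        have hne : i0 + 1 + (k : ZMod n) ≠ i0 := by
          intro h
          have h0 : ((k + 1 : ℕ) : ZMod n) = 0 := by
            have : (1 : ZMod n) + k = 0 := by
              have := h
              rw [add_assoc] at this
              exact left_eq_add.mp this.symm
            push_cast; rw [add_comm]; exact this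
          rw [ZMod.natCast_eq_zero_iff] at h0
          have := Nat.le_of_dvd (Nat.succ_pos k) h0
          omega
        have := hstep _ hne
        rw [this]
        congr 2
        push_cast
        ring_nf
    have hn : 1 ≤ n := Nat.one_le_iff_ne_zero.mpr (NeZero.ne n)
    have hlast := hgo (n - 1) (by omega)
    have hcast : (i0 + 1 + ((n - 1 : ℕ) : ZMod n)) = i0 := by
      have : ((n - 1 : ℕ) : ZMod n) = -1 := by
        rw [Nat.cast_sub hn]; simp
      rw [this]; ring
    rw [hcast] at hlast
    rcases hside i0 with ⟨h1, h2⟩ | ⟨h1, h2⟩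
    · rw [hi0] at h1 h2; rw [h1, h2]; exact hlast.symm
    · rw [hi0] at h1 h2; rw [h1, h2]; exact hlast

/-- If two isometries agree at the endpoints of a segment, they agree on the segment. -/
lemma agree_segment (φ ψ : E3 ≃ᵢ E3) {a b : E3} (ha : φ a = ψ a) (hb : φ b = ψ b) {x : E3}
    (hx : x ∈ segment ℝ a b) : φ x = ψ x := by
  have h1 : ∀ θ : E3 ≃ᵢ E3, ∀ s : ℝ, θ (AffineMap.lineMap a b s) =
      AffineMap.lineMap (θ a) (θ b) s := by
    intro θ s
    exact ((θ.toRealAffineIsometryEquiv).toAffineEquiv : E3 →ᵃ[ℝ] E3).apply_lineMap a b s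
  rw [segment_eq_image_lineMap] at hx
  obtain ⟨s, _, rfl⟩ := hx
  rw [h1 φ s, h1 ψ s, ha, hb]

/-- Cutting along a matching does not change the motions at all. In particular, if the uncut
paneled polyhedron is rigid, so is the one cut along any matching. -/
theorem result (P : Polyhedron) (M : Set P.E) (hM : IsMatching P M) :
    (∀ g : ℝ → P.F → (E3 ≃ᵢ E3), IsMotion P M g ↔ IsMotion P ∅ g) ∧
      (Rigid P M ↔ Rigid P ∅) := by
  have key : ∀ g : ℝ → P.F → (E3 ≃ᵢ E3), IsMotion P M g ↔ IsMotion P ∅ g := by
    intro g
    constructor
    · intro hg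
      refine ⟨hg.cont, hg.start, fun e _ t x hx => ?_⟩
      exact agree_segment _ _ (vertex_common hM hg t _ e (Or.inl rfl))
        (vertex_common hM hg t _ e (Or.inr rfl)) hx
    · intro hg
      exact ⟨hg.cont, hg.start, fun e _ t x hx => hg.hinge e (Set.notMem_empty e) t x hx⟩
  refine ⟨key, ?_⟩
  constructor
  · intro h g hg
    exact h g ((key g).mpr hg)
  · intro h g hg
    exact h g ((key g).mp hg)

end Pool.Agent.Results.MP_e0197a_co.MatchingCuts
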